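import Mathlib

open Finset PowerSeries

namespace Pool.Agent.Q222.RE

/-- convolution with a probability vector is a contraction of `ℓ²` -/
theorem conv_sq (g : ℕ → ℝ) (hg : ∀ n, 0 ≤ g n) (hs : HasSum g 1) (f : ℕ → ℂ)
    (hf : Summable fun n => ‖f n‖ ^ 2) :
    (Summable fun n => ‖∑ x ∈ antidiagonal n, (g x.1 : ℂ) * f x.2‖ ^ 2) ∧
      ∑' n, ‖∑ x ∈ antidiagonal n, (g x.1 : ℂ) * f x.2‖ ^ 2 ≤ ∑' n, ‖f n‖ ^ 2 := by
  have hpt : ∀ n, ‖∑ x ∈ antidiagonal n, (g x.1 : ℂ) * f x.2‖ ^ 2 ≤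
      ∑ x ∈ antidiagonal n, g x.1 * ‖f x.2‖ ^ 2 := by
    intro n
    have h1 : ‖∑ x ∈ antidiagonal n, (g x.1 : ℂ) * f x.2‖ ≤
        ∑ x ∈ antidiagonal n, Real.sqrt (g x.1) * (Real.sqrt (g x.1) * ‖f x.2‖) := by
      refine (norm_sum_le _ _).trans (le_of_eq (Finset.sum_congr rfl fun x _ => ?_))
      rw [norm_mul, Complex.norm_real, Real.norm_of_nonneg (hg _), ← mul_assoc,
        Real.mul_self_sqrt (hg _)]
    have h2 : (∑ x ∈ antidiagonal n, Real.sqrt (g x.1) * (Real.sqrt (g x.1) * ‖f x.2‖)) ^ 2 ≤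
        (∑ x ∈ antidiagonal n, Real.sqrt (g x.1) ^ 2) *
          ∑ x ∈ antidiagonal n, (Real.sqrt (g x.1) * ‖f x.2‖) ^ 2 :=
      Finset.sum_mul_sq_le_sq_mul_sq _ _ _
    have h3 : ∑ x ∈ antidiagonal n, Real.sqrt (g x.1) ^ 2 ≤ 1 := by
      have : ∑ x ∈ antidiagonal n, Real.sqrt (g x.1) ^ 2 = ∑ k ∈ range (n + 1), g k := by
        rw [Finset.Nat.sum_antidiagonal_eq_sum_range_succ_mk]
        exact Finset.sum_congr rfl fun k _ => Real.sq_sqrt (hg _)
      rw [this]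
      exact sum_le_hasSum _ (fun i _ => hg i) hs
    calc ‖∑ x ∈ antidiagonal n, (g x.1 : ℂ) * f x.2‖ ^ 2
        ≤ (∑ x ∈ antidiagonal n, Real.sqrt (g x.1) * (Real.sqrt (g x.1) * ‖f x.2‖)) ^ 2 :=
          pow_le_pow_left₀ (norm_nonneg _) h1 2
      _ ≤ _ := h2
      _ ≤ 1 * ∑ x ∈ antidiagonal n, (Real.sqrt (g x.1) * ‖f x.2‖) ^ 2 :=
          mul_le_mul_of_nonneg_right h3 (Finset.sum_nonneg fun _ _ => sq_nonneg _)
      _ = ∑ x ∈ antidiagonal n, g x.1 * ‖f x.2‖ ^ 2 := by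
          rw [one_mul]
          refine Finset.sum_congr rfl fun x _ => ?_
          rw [mul_pow, Real.sq_sqrt (hg _)]
  have hgs : Summable fun n => ‖g n‖ := hs.summable.norm
  have hfs : Summable fun n => ‖(‖f n‖ ^ 2 : ℝ)‖ := by
    refine hf.congr fun n => ?_
    rw [Real.norm_of_nonneg (sq_nonneg _)]
  have hS : Summable fun n => ∑ x ∈ antidiagonal n, g x.1 * ‖f x.2‖ ^ 2 := by
    have := summable_norm_sum_mul_antidiagonal_of_summable_norm hgs hfs
    exact this.of_norm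
  have hT : ∑' n, ∑ x ∈ antidiagonal n, g x.1 * ‖f x.2‖ ^ 2 = ∑' n, ‖f n‖ ^ 2 := by
    have := tsum_mul_tsum_eq_tsum_sum_antidiagonal_of_summable_norm hgs hfs
    rw [← this, hs.tsum_eq, one_mul]
  have hS' : Summable fun n => ‖∑ x ∈ antidiagonal n, (g x.1 : ℂ) * f x.2‖ ^ 2 :=
    Summable.of_nonneg_of_le (fun _ => sq_nonneg _) hpt hS
  exact ⟨hS', (hS'.tsum_le_tsum hpt hS).trans (le_of_eq hT)⟩

/-- the power series with the coefficients `g` -/
noncomputable def ps (g : ℕ → ℝ) : PowerSeries ℂ := PowerSeries.mk fun n => (g n : ℂ)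

noncomputable def nsq (f : PowerSeries ℂ) : ℝ := ∑' n, ‖coeff n f‖ ^ 2

theorem step (a : ℕ) (g : ℕ → ℝ) (hgn : ∀ n, 0 ≤ g n) (hs : HasSum g 1)
    (q : PowerSeries ℂ) (hq : ∀ n, a ≤ n → coeff n q = 0) (F F' : PowerSeries ℂ)
    (h : X ^ a * F = ps g * F' + q) (hF' : Summable fun n => ‖coeff n F'‖ ^ 2) :
    (Summable fun n => ‖coeff n F‖ ^ 2) ∧
      nsq F + ∑ n ∈ range a, ‖coeff n q‖ ^ 2 ≤ nsq F' := by
  obtain ⟨hS, hT⟩ := conv_sq g hgn hs (fun n => coeff n F') hF'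
  have hc : ∀ n, coeff n (ps g * F') = ∑ x ∈ antidiagonal n, (g x.1 : ℂ) * coeff x.2 F' := by
    intro n
    rw [PowerSeries.coeff_mul]
    exact Finset.sum_congr rfl fun x _ => by simp [ps]
  have hW : Summable fun n => ‖coeff n (ps g * F')‖ ^ 2 := by
    refine hS.congr fun n => ?_
    rw [hc]
  have hW' : ∑' n, ‖coeff n (ps g * F')‖ ^ 2 ≤ nsq F' := by
    refine le_trans (le_of_eq ?_) hT
    exact tsum_congr fun n => by rw [hc]
  have h1 : ∀ n, coeff (n + a) (ps g * F') = coeff n F := by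
    intro n
    have h2 := congrArg (coeff (n + a)) h
    rw [map_add, hq _ (by omega), add_zero, PowerSeries.coeff_X_pow_mul] at h2
    exact h2.symm
  have h3 : ∀ n ∈ range a, ‖coeff n (ps g * F')‖ ^ 2 = ‖coeff n q‖ ^ 2 := by
    intro n hn
    have h2 := congrArg (coeff n) h
    rw [map_add, PowerSeries.coeff_X_pow_mul', if_neg (by simpa using hn)] at h2
    have : coeff n (ps g * F') = - coeff n q := by linear_combination -h2
    rw [this, norm_neg]
  have h4 := hW.sum_add_tsum_nat_add a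
  have h5 : ∑' n, ‖coeff (n + a) (ps g * F')‖ ^ 2 = nsq F := tsum_congr fun n => by rw [h1]
  rw [h5, Finset.sum_congr rfl h3] at h4
  constructor
  · have := (summable_nat_add_iff a).2 hW
    refine this.congr fun n => ?_
    rw [h1]
  · linarith

theorem alg_core (N : ℕ) (a : ℕ → ℕ) (g : ℕ → ℕ → ℝ) (hg0 : ∀ j < N, 0 < g j 0)
    (hgn : ∀ j < N, ∀ n, 0 ≤ g j n) (hsum : ∀ j < N, HasSum (g j) 1)
    (q : ℕ → PowerSeries ℂ) (hq : ∀ j < N, ∀ n, a j ≤ n → coeff n (q j) = 0)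
    (b : ℕ → ℕ) (hb : ∀ j < N, b j = a j + b (j + 1)) (hbN : b N = 0)
    (T : ℕ → PowerSeries ℂ)
    (hT : ∀ j < N, T j = ps (g j) * T (j + 1) + q j * X ^ b (j + 1))
    (h0 : T 0 = X ^ b 0 * T N)
    (hH : Summable fun n => ‖coeff n (T N)‖ ^ 2) : ∀ j < N, q j = 0 := by
  have hdvd : ∀ j ≤ N, (X : PowerSeries ℂ) ^ b j ∣ T j := by
    intro j
    induction j with
    | zero => intro _; exact ⟨_, h0⟩
    | succ j ih =>
      intro hj
      have hj' : j < N := hj
      obtain ⟨u, hu⟩ := ih hj'.le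
      have h1 : (X : PowerSeries ℂ) ^ b (j + 1) ∣ ps (g j) * T (j + 1) := by
        refine ⟨X ^ a j * u - q j, ?_⟩
        have h2 := hT j hj'
        rw [hu, hb j hj'] at h2
        rw [pow_add] at h2
        linear_combination -h2
      have hunit : IsUnit (ps (g j)) := by
        rw [PowerSeries.isUnit_iff_constantCoeff]
        have : constantCoeff (ps (g j)) = (g j 0 : ℂ) := by
          simp [ps]
        rw [this]
        exact isUnit_iff_ne_zero.2 (by exact_mod_cast (hg0 j hj').ne')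
      exact (hunit.dvd_mul_left).1 h1
  have hch : ∀ j, ∃ u, j ≤ N → T j = X ^ b j * u := by
    intro j
    by_cases hj : j ≤ N
    · obtain ⟨u, hu⟩ := hdvd j hj
      exact ⟨u, fun _ => hu⟩
    · exact ⟨0, fun h => absurd h hj⟩
  choose F hF using hch
  have hX : ∀ k : ℕ, (X : PowerSeries ℂ) ^ k ≠ 0 := fun k => pow_ne_zero _ PowerSeries.X_ne_zero
  have hFN : F N = T N := by
    have := hF N le_rfl
    rw [hbN, pow_zero, one_mul] at this
    exact this.symm
  have hF0 : F 0 = T N := by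
    have := hF 0 (Nat.zero_le _)
    rw [h0] at this
    exact (mul_left_cancel₀ (hX _) this).symm
  have hrec : ∀ j < N, X ^ a j * F j = ps (g j) * F (j + 1) + q j := by
    intro j hj
    apply mul_left_cancel₀ (hX (b (j + 1)))
    have h1 := hT j hj
    rw [hF j hj.le, hF (j + 1) hj, hb j hj, pow_add] at h1
    linear_combination h1
  -- summability downwards
  have hsm : ∀ i ≤ N, (Summable fun n => ‖coeff n (F (N - i))‖ ^ 2) ∧
      nsq (F (N - i)) + ∑ j ∈ Ico (N - i) N, ∑ n ∈ range (a j), ‖coeff n (q j)‖ ^ 2 ≤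
        nsq (T N) := by
    intro i
    induction i with
    | zero =>
      intro _
      simp only [Nat.sub_zero, Finset.Ico_self, Finset.sum_empty, add_zero]
      rw [hFN]
      exact ⟨hH, le_rfl⟩
    | succ i ih =>
      intro hi
      obtain ⟨h1, h2⟩ := ih (by omega)
      have hj : N - (i + 1) < N := by omega
      have hj1 : N - (i + 1) + 1 = N - i := by omega
      have h3 := step (a (N - (i + 1))) (g (N - (i + 1))) (hgn _ hj) (hsum _ hj) (q _) (hq _ hj)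
        (F (N - (i + 1))) (F (N - i)) (by have := hrec _ hj; rwa [hj1] at this) h1
      refine ⟨h3.1, ?_⟩
      rw [Finset.sum_eq_sum_Ico_succ_bot hj, hj1]
      linarith [h3.2]
  obtain ⟨_, h2⟩ := hsm N le_rfl
  rw [Nat.sub_self, hF0] at h2
  have h3 : ∑ j ∈ Ico 0 N, ∑ n ∈ range (a j), ‖coeff n (q j)‖ ^ 2 ≤ 0 := by linarith
  intro j hj
  have h4 := (Finset.sum_eq_zero_iff_of_nonneg
    (fun j _ => Finset.sum_nonneg fun n _ => sq_nonneg _)).1
    (le_antisymm h3 (Finset.sum_nonneg fun j _ => Finset.sum_nonneg fun n _ => sq_nonneg _)) j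
    (by simp [hj])
  ext n
  rw [map_zero]
  by_cases hn : a j ≤ n
  · exact hq j hj n hn
  · have h5 := (Finset.sum_eq_zero_iff_of_nonneg (fun n _ => sq_nonneg _)).1 h4 n
      (by simpa using hn)
    simpa using h5

end Pool.Agent.Q222.RE
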