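import Mathlib

/-!
Definitions for MP_432bca_pr.  `X 0, ..., X (N-1)` are the integer-valued random variables, block
`0` being the block `N` of the problem file (the sequence is `N`-periodic), and `m j` is the least
point of the support of `X j`.
-/

open MeasureTheory ProbabilityTheory

namespace Pool.Agent.Q222.RE

variable {Ω : Type*} [MeasurableSpace Ω]

/-- `G_Z(s) = E s^Z` -/
noncomputable def pgf (P : Measure Ω) (Z : Ω → ℤ) (s : ℂ) : ℂ := ∫ ω, s ^ (Z ω) ∂P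

/-- `F_Z(k) = P(Z ≤ k)` -/
noncomputable def dist (P : Measure Ω) (Z : Ω → ℤ) (k : ℤ) : ℝ := P.real {ω | Z ω ≤ k}

/-- `X 0 + ... + X (j-1)` -/
def psum (X : ℕ → Ω → ℤ) (j : ℕ) (ω : Ω) : ℤ := ∑ i ∈ Finset.range j, X i ω

/-- the number `-m j` of columns of block `j` -/
def cols (m : ℕ → ℤ) (j : ℕ) : ℕ := (-(m j)).toNat

/-- the weight `w_j(s) = s^{m_j} G_{X 0 + ... + X (j-1)}(s)` -/
noncomputable def wt (P : Measure Ω) (X : ℕ → Ω → ℤ) (m : ℕ → ℤ) (j : ℕ) (s : ℂ) : ℂ :=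
  s ^ (m j) * pgf P (psum X j) s

/-- `φ_{j,c}(s)` -/
noncomputable def phi (P : Measure Ω) (X : ℕ → Ω → ℤ) (m : ℕ → ℤ) (j c : ℕ) (s : ℂ) : ℂ :=
  wt P X m j s * ∑ r ∈ Finset.range (cols m j - c), s ^ (r + c) * (dist P (X j) (m j + r) : ℂ)

/-- `ν_{j,c}` -/
noncomputable def nu (P : Measure Ω) (X : ℕ → Ω → ℤ) (m : ℕ → ℤ) (j c : ℕ) : ℝ :=
  ∑ r ∈ Finset.range (cols m j - c), dist P (X j) (m j + r)

/-- `(α, t)` is the label of a row: `α` is a zero of `G_{S_N} - 1` with `|α| ≤ 1`, `α ≠ 0, 1`, and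
`t` is smaller than its multiplicity (which is `1` if `|α| = 1`) -/
def IsRow (P : Measure Ω) (X : ℕ → Ω → ℤ) (N : ℕ) (α : ℂ) (t : ℕ) : Prop :=
  α ≠ 0 ∧ α ≠ 1 ∧
    ((‖α‖ < 1 ∧ ∀ i ≤ t, iteratedDeriv i (fun s => pgf P (psum X N) s - 1) α = 0) ∨
      (‖α‖ = 1 ∧ t = 0 ∧ pgf P (psum X N) α = 1))

/-- the rows: one for each label, and the last row -/
abbrev Row (P : Measure Ω) (X : ℕ → Ω → ℤ) (N : ℕ) : Type :=
  Option {x : ℂ × ℕ // IsRow P X N x.1 x.2}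

/-- the columns: the pairs `(j, c)` with `j < N` and `c < -m j` -/
abbrev Col (m : ℕ → ℤ) (N : ℕ) : Type := Σ j : Fin N, Fin (cols m j)

/-- the matrix `A` -/
noncomputable def matA (P : Measure Ω) (X : ℕ → Ω → ℤ) (m : ℕ → ℤ) (N : ℕ) :
    Matrix (Row P X N) (Col m N) ℂ
  | none, x => (nu P X m x.1 x.2 : ℂ)
  | some y, x => iteratedDeriv y.1.2 (phi P X m x.1 x.2) y.1.1

end Pool.Agent.Q222.RE
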