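import Mathlib

open Filter Topology Metric

namespace Pool.Agent.Q222.RE

theorem int_factor (Φ Ψ : ℂ → ℂ) (hΦ : DifferentiableOn ℂ Φ (ball 0 1))
    (hΨ : DifferentiableOn ℂ Ψ (ball 0 1)) (h0 : Ψ 0 ≠ 0) (α : ℂ) (hα : α ∈ ball (0 : ℂ) 1)
    (hint : analyticOrderAt Ψ α ≤ analyticOrderAt Φ α) :
    (∀ᶠ z in 𝓝[≠] α, Ψ z ≠ 0) ∧ ∃ v : ℂ → ℂ, AnalyticAt ℂ v α ∧ ∀ᶠ z in 𝓝 α, Φ z = Ψ z * v z := by
  have hΦa : AnalyticAt ℂ Φ α := hΦ.analyticAt (isOpen_ball.mem_nhds hα)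
  have hΨa : AnalyticAt ℂ Ψ α := hΨ.analyticAt (isOpen_ball.mem_nhds hα)
  have hne : analyticOrderAt Ψ α ≠ ⊤ := by
    intro h
    rw [analyticOrderAt_eq_top] at h
    have hA : AnalyticOnNhd ℂ Ψ (ball 0 1) := hΨ.analyticOnNhd isOpen_ball
    have := hA.eqOn_zero_of_preconnected_of_eventuallyEq_zero
      (convex_ball (0 : ℂ) 1).isPreconnected hα h (mem_ball_self one_pos)
    exact h0 this
  constructor
  · rcases hΨa.eventually_eq_zero_or_eventually_ne_zero with h | h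
    · exact absurd (analyticOrderAt_eq_top.2 h) hne
    · exact h
  · obtain ⟨n, hn⟩ := ENat.ne_top_iff_exists.1 hne
    obtain ⟨u, hu, hu0, hue⟩ := (hΨa.analyticOrderAt_eq_natCast).1 hn.symm
    rw [← hn] at hint
    obtain ⟨g, hg, hge⟩ := (natCast_le_analyticOrderAt hΦa).1 hint
    refine ⟨fun z => g z / u z, hg.div hu hu0, ?_⟩
    have hun : ∀ᶠ z in 𝓝 α, u z ≠ 0 := hu.continuousAt.eventually_ne hu0
    filter_upwards [hue, hge, hun] with z h1 h2 h3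
    rw [h1, h2]
    simp only [smul_eq_mul]
    field_simp

theorem div_bdd (Φ Ψ : ℂ → ℂ) (hΦ : DifferentiableOn ℂ Φ (closedBall 0 1))
    (hΨ : DifferentiableOn ℂ Ψ (closedBall 0 1)) (h0 : Ψ 0 ≠ 0)
    (hint : ∀ α : ℂ, ‖α‖ < 1 → analyticOrderAt Ψ α ≤ analyticOrderAt Φ α)
    (hbd : ∀ α : ℂ, ‖α‖ = 1 → Ψ α = 0 →
      Φ α = 0 ∧ ∃ d : ℂ, d ≠ 0 ∧ HasDerivWithinAt Ψ d (closedBall 0 1) α) :
    ∃ (H : ℂ → ℂ) (M : ℝ), DifferentiableOn ℂ H (ball 0 1) ∧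
      (∀ s ∈ ball (0 : ℂ) 1, H s * Ψ s = Φ s) ∧ ∀ s ∈ ball (0 : ℂ) 1, ‖H s‖ ≤ M := by
  set Q : ℂ → ℂ := fun s => Φ s / Ψ s with hQ
  have hΦb : DifferentiableOn ℂ Φ (ball 0 1) := hΦ.mono ball_subset_closedBall
  have hΨb : DifferentiableOn ℂ Ψ (ball 0 1) := hΨ.mono ball_subset_closedBall
  have hfac : ∀ α ∈ ball (0 : ℂ) 1, (∀ᶠ z in 𝓝[≠] α, Ψ z ≠ 0) ∧
      ∃ v : ℂ → ℂ, AnalyticAt ℂ v α ∧ ∀ᶠ z in 𝓝 α, Φ z = Ψ z * v z := fun α hα =>
    int_factor Φ Ψ hΦb hΨb h0 α hα (hint α (by simpa using hα))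
  have hloc : ∀ p ∈ closedBall (0 : ℂ) 1, ∃ C : ℝ, ∀ᶠ s in 𝓝[closedBall 0 1] p, ‖Q s‖ ≤ C := by
    intro p hp
    rcases lt_or_eq_of_le (show ‖p‖ ≤ 1 by simpa using hp) with hlt | heq
    · obtain ⟨_, v, hv, hve⟩ := hfac p (by simpa using hlt)
      refine ⟨‖v p‖ + 1, ?_⟩
      have h1 : ∀ᶠ z in 𝓝 p, ‖v z‖ < ‖v p‖ + 1 :=
        (hv.continuousAt.norm).eventually (gt_mem_nhds (lt_add_one _))
      apply Filter.Eventually.filter_mono nhdsWithin_le_nhds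
      filter_upwards [h1, hve] with z h2 h3
      rw [hQ]
      simp only
      rw [h3]
      by_cases hz : Ψ z = 0
      · rw [hz, zero_mul, zero_div, norm_zero]
        linarith [norm_nonneg (v p)]
      · rw [mul_div_cancel_left₀ _ hz]
        exact h2.le
    · by_cases hz : Ψ p = 0
      · obtain ⟨hΦp, d, hd, hder⟩ := hbd p heq hz
        have hdΦ := (hΦ p hp).hasDerivWithinAt
        set d' := derivWithin Φ (closedBall 0 1) p with hd'
        have hdn : 0 < ‖d‖ := norm_pos_iff.2 hd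
        have e1 := (hasDerivWithinAt_iff_isLittleO.1 hder).bound (half_pos hdn)
        have e2 := (hasDerivWithinAt_iff_isLittleO.1 hdΦ).bound (one_pos)
        refine ⟨(‖d'‖ + 1) / (‖d‖ / 2), ?_⟩
        filter_upwards [e1, e2] with s h1 h2
        rw [hz, sub_zero, smul_eq_mul] at h1
        rw [hΦp, sub_zero, smul_eq_mul, one_mul] at h2
        have h3 : ‖d‖ / 2 * ‖s - p‖ ≤ ‖Ψ s‖ := by
          have : ‖(s - p) * d‖ ≤ ‖Ψ s‖ + ‖Ψ s - (s - p) * d‖ := by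
            have := norm_sub_le (Ψ s) (Ψ s - (s - p) * d)
            rwa [sub_sub_cancel] at this
          rw [norm_mul] at this
          nlinarith
        have h4 : ‖Φ s‖ ≤ (‖d'‖ + 1) * ‖s - p‖ := by
          have : ‖Φ s‖ ≤ ‖(s - p) * d'‖ + ‖Φ s - (s - p) * d'‖ := by
            have := norm_add_le ((s - p) * d') (Φ s - (s - p) * d')
            rwa [add_sub_cancel] at this
          rw [norm_mul] at this
          nlinarith
        rw [hQ]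
        simp only
        rw [norm_div]
        have h5 : 0 ≤ (‖d'‖ + 1) / (‖d‖ / 2) := by positivity
        rcases eq_or_lt_of_le (norm_nonneg (Ψ s)) with h6 | h6
        · rw [← h6, div_zero]; exact h5
        · rw [div_le_iff₀ h6]
          calc ‖Φ s‖ ≤ (‖d'‖ + 1) * ‖s - p‖ := h4
            _ = (‖d'‖ + 1) / (‖d‖ / 2) * (‖d‖ / 2 * ‖s - p‖) := by field_simp
            _ ≤ _ := mul_le_mul_of_nonneg_left h3 h5
      · have hc : ContinuousWithinAt Q (closedBall 0 1) p :=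
          ((hΦ p hp).continuousWithinAt).div ((hΨ p hp).continuousWithinAt) hz
        refine ⟨‖Q p‖ + 1, ?_⟩
        have : ∀ᶠ z in 𝓝[closedBall 0 1] p, ‖Q z‖ < ‖Q p‖ + 1 :=
          (hc.norm).eventually (gt_mem_nhds (lt_add_one _))
        exact this.mono fun _ h => h.le
  have hcomp : ∃ M : ℝ, ∀ s ∈ closedBall (0 : ℂ) 1, ‖Q s‖ ≤ M := by
    refine (isCompact_closedBall (0 : ℂ) 1).induction_on
      (p := fun S => ∃ M : ℝ, ∀ s ∈ S, ‖Q s‖ ≤ M) ⟨0, by simp⟩ ?_ ?_ ?_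
    · rintro S T hST ⟨M, hM⟩
      exact ⟨M, fun s hs => hM s (hST hs)⟩
    · rintro S T ⟨M, hM⟩ ⟨M', hM'⟩
      refine ⟨max M M', ?_⟩
      rintro s (hs | hs)
      · exact (hM s hs).trans (le_max_left _ _)
      · exact (hM' s hs).trans (le_max_right _ _)
    · intro p hp
      obtain ⟨C, hC⟩ := hloc p hp
      exact ⟨_, hC, C, fun s hs => hs⟩
  obtain ⟨M, hM⟩ := hcomp
  have hlim : ∀ α ∈ ball (0 : ℂ) 1, ∀ v : ℂ → ℂ, ContinuousAt v α →
      (∀ᶠ z in 𝓝 α, Φ z = Ψ z * v z) → Tendsto Q (𝓝[≠] α) (𝓝 (v α)) := by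
    intro α hα v hv hve
    have h1 : Tendsto v (𝓝[≠] α) (𝓝 (v α)) := hv.tendsto.mono_left nhdsWithin_le_nhds
    refine h1.congr' ?_
    have h2 : ∀ᶠ z in 𝓝[≠] α, Φ z = Ψ z * v z := hve.filter_mono nhdsWithin_le_nhds
    filter_upwards [h2, (hfac α hα).1] with z h3 h4
    rw [hQ]
    simp only
    rw [h3, mul_div_cancel_left₀ _ h4]
  set H : ℂ → ℂ := fun s => limUnder (𝓝[≠] s) Q with hH
  have hHv : ∀ α ∈ ball (0 : ℂ) 1, ∀ v : ℂ → ℂ, ContinuousAt v α →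
      (∀ᶠ z in 𝓝 α, Φ z = Ψ z * v z) → H α = v α := fun α hα v hv hve =>
    (hlim α hα v hv hve).limUnder_eq
  refine ⟨H, M, ?_, ?_, ?_⟩
  · intro α hα
    obtain ⟨_, v, hv, hve⟩ := hfac α hα
    have h1 : ∀ᶠ s in 𝓝 α, H s = v s := by
      filter_upwards [hve.eventually_nhds, hv.eventually_analyticAt,
        isOpen_ball.mem_nhds hα] with s h2 h3 h4
      exact hHv s h4 v h3.continuousAt h2
    exact (hv.differentiableAt.congr_of_eventuallyEq h1).differentiableWithinAt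
  · intro α hα
    obtain ⟨_, v, hv, hve⟩ := hfac α hα
    rw [hHv α hα v hv.continuousAt hve, hve.self_of_nhds, mul_comm]
  · intro α hα
    obtain ⟨_, v, hv, hve⟩ := hfac α hα
    rw [hHv α hα v hv.continuousAt hve]
    have h1 := (hlim α hα v hv.continuousAt hve).norm
    refine le_of_tendsto h1 ?_
    have h2 : ball (0 : ℂ) 1 ∈ 𝓝[≠] α := nhdsWithin_le_nhds (isOpen_ball.mem_nhds hα)
    filter_upwards [h2] with z hz
    exact hM z (ball_subset_closedBall hz)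

end Pool.Agent.Q222.RE
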