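import Mathlib

open Filter Topology Metric Finset

namespace Pool.Agent.Q222.RE

/-- the generating function of `g` -/
noncomputable def gf (g : ℕ → ℝ) (s : ℂ) : ℂ := ∑' n, (g n : ℂ) * s ^ n

theorem pow_sub_le (s p : ℂ) (hs : ‖s‖ ≤ 1) (hp : ‖p‖ ≤ 1) (n : ℕ) :
    ‖s ^ n - p ^ n‖ ≤ n * ‖s - p‖ := by
  rw [← (Commute.all s p).geom_sum₂_mul, norm_mul]
  refine mul_le_mul_of_nonneg_right ?_ (norm_nonneg _)
  refine (norm_sum_le _ _).trans ?_
  calc ∑ i ∈ range n, ‖s ^ i * p ^ (n - 1 - i)‖ ≤ ∑ i ∈ range n, (1 : ℝ) := by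
        refine Finset.sum_le_sum fun i _ => ?_
        rw [norm_mul, norm_pow, norm_pow]
        exact mul_le_one₀ (pow_le_one₀ (norm_nonneg _) hs) (pow_nonneg (norm_nonneg _) _)
          (pow_le_one₀ (norm_nonneg _) hp)
    _ = n := by simp

theorem gf_summable (g : ℕ → ℝ) (hgn : ∀ n, 0 ≤ g n) (hs : Summable g) (s : ℂ) (h : ‖s‖ ≤ 1) :
    Summable fun n => (g n : ℂ) * s ^ n := by
  refine Summable.of_norm_bounded (g := g) hs fun n => ?_
  rw [norm_mul, Complex.norm_real, Real.norm_of_nonneg (hgn n), norm_pow]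
  exact mul_le_of_le_one_right (hgn n) (pow_le_one₀ (norm_nonneg _) h)

theorem gf_hasDeriv (g : ℕ → ℝ) (hgn : ∀ n, 0 ≤ g n) (hs : Summable g)
    (hm : Summable fun n : ℕ => (n : ℝ) * g n) (p : ℂ) (hp : ‖p‖ ≤ 1) :
    HasDerivWithinAt (gf g) (∑' n, (g n : ℂ) * (n * p ^ (n - 1))) (closedBall 0 1) p := by
  rw [hasDerivWithinAt_iff_tendsto_slope]
  have hev : ∀ᶠ s in 𝓝[closedBall (0 : ℂ) 1 \ {p}] p, ‖s‖ ≤ 1 ∧ s ≠ p := by
    filter_upwards [self_mem_nhdsWithin] with s hs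
    exact ⟨by simpa using hs.1, hs.2⟩
  have hT : Tendsto (fun s => ∑' n, (g n : ℂ) * slope (fun z : ℂ => z ^ n) p s)
      (𝓝[closedBall (0 : ℂ) 1 \ {p}] p) (𝓝 (∑' n, (g n : ℂ) * (n * p ^ (n - 1)))) := by
    refine tendsto_tsum_of_dominated_convergence (bound := fun n : ℕ => (n : ℝ) * g n) hm ?_ ?_
    · intro n
      refine Tendsto.const_mul _ ?_
      have := (hasDerivAt_pow n p).hasDerivWithinAt (s := closedBall (0 : ℂ) 1)
      exact hasDerivWithinAt_iff_tendsto_slope.1 this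
    · filter_upwards [hev] with s hs n
      rw [norm_mul, Complex.norm_real, Real.norm_of_nonneg (hgn n), mul_comm]
      refine mul_le_mul_of_nonneg_right ?_ (hgn n)
      rw [slope_def_field, norm_div, div_le_iff₀ (norm_pos_iff.2 (sub_ne_zero.2 hs.2))]
      exact pow_sub_le s p hs.1 hp n
  refine hT.congr' ?_
  filter_upwards [hev] with s hs'
  rw [slope_def_field, gf, gf,
    ← (gf_summable g hgn hs s hs'.1).tsum_sub (gf_summable g hgn hs p hp), ← tsum_div_const]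
  refine tsum_congr fun n => ?_
  rw [slope_def_field]
  ring

theorem gf_norm_le (g : ℕ → ℝ) (hgn : ∀ n, 0 ≤ g n) (hs : HasSum g 1) (s : ℂ) (h : ‖s‖ ≤ 1) :
    ‖gf g s‖ ≤ 1 := by
  have h1 : ∀ n, ‖(g n : ℂ) * s ^ n‖ ≤ g n := by
    intro n
    rw [norm_mul, Complex.norm_real, Real.norm_of_nonneg (hgn n), norm_pow]
    exact mul_le_of_le_one_right (hgn n) (pow_le_one₀ (norm_nonneg _) h)
  exact tsum_of_norm_bounded hs h1

/-- equality in the triangle inequality -/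
theorem gf_extreme (g : ℕ → ℝ) (hgn : ∀ n, 0 ≤ g n) (hs : HasSum g 1) (p : ℂ) (hp : ‖p‖ = 1)
    (h : ‖gf g p‖ = 1) (n : ℕ) (hn : g n ≠ 0) : p ^ n = gf g p := by
  set z := gf g p with hz
  have hzz : (starRingEnd ℂ) z * z = 1 := by
    rw [Complex.conj_mul', h]; simp
  have h1 : HasSum (fun n => (g n : ℂ) * p ^ n) z :=
    (gf_summable g hgn hs.summable p hp.le).hasSum
  have h2 : HasSum (fun n => (starRingEnd ℂ) z * ((g n : ℂ) * p ^ n)) 1 := by
    have := h1.mul_left ((starRingEnd ℂ) z)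
    rwa [hzz] at this
  have h3 : HasSum (fun n => g n * ((starRingEnd ℂ) z * p ^ n).re) 1 := by
    have := Complex.hasSum_re h2
    simp only [Complex.one_re] at this
    refine this.congr_fun ?_ |> fun h => h
    intro n
    rw [show (starRingEnd ℂ) z * ((g n : ℂ) * p ^ n) = (g n : ℂ) * ((starRingEnd ℂ) z * p ^ n) by ring,
      Complex.re_ofReal_mul]
  have h4 : HasSum (fun n => g n * (1 - ((starRingEnd ℂ) z * p ^ n).re)) 0 := by
    have := hs.sub h3
    rw [sub_self] at this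
    refine this.congr_fun ?_ |> fun h => h
    intro n
    ring
  have hn1 : ∀ n, ‖(starRingEnd ℂ) z * p ^ n‖ = 1 := by
    intro n
    rw [norm_mul, norm_pow, hp, one_pow, mul_one, RCLike.norm_conj, h]
  have h5 : ∀ n, 0 ≤ g n * (1 - ((starRingEnd ℂ) z * p ^ n).re) := by
    intro n
    refine mul_nonneg (hgn n) ?_
    have := Complex.re_le_norm ((starRingEnd ℂ) z * p ^ n)
    rw [hn1] at this
    linarith
  have h6 := (hasSum_zero_iff_of_nonneg h5).1 h4
  have h7 := congrFun h6 n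
  simp only [Pi.zero_apply, mul_eq_zero] at h7
  have h8 : ((starRingEnd ℂ) z * p ^ n).re = 1 := by
    rcases h7 with h7 | h7
    · exact absurd h7 hn
    · linarith
  have h9 : (starRingEnd ℂ) z * p ^ n = 1 := by
    have h10 : ((starRingEnd ℂ) z * p ^ n).im = 0 := by
      have h11 := hn1 n
      have h12 := Complex.sq_norm ((starRingEnd ℂ) z * p ^ n)
      rw [h11, Complex.normSq_apply, h8] at h12
      nlinarith [sq_nonneg ((starRingEnd ℂ) z * p ^ n).im]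
    exact Complex.ext (by simpa using h8) (by simpa using h10)
  calc p ^ n = (z * (starRingEnd ℂ) z) * p ^ n := by rw [mul_comm z, hzz, one_mul]
    _ = z * ((starRingEnd ℂ) z * p ^ n) := by ring
    _ = z := by rw [h9, mul_one]

theorem gf_extreme_deriv (g : ℕ → ℝ) (hgn : ∀ n, 0 ≤ g n) (hs : HasSum g 1) (p : ℂ) (hp : ‖p‖ = 1)
    (h : ‖gf g p‖ = 1) :
    ∑' n, (g n : ℂ) * (n * p ^ (n - 1)) = gf g p * p⁻¹ * ((∑' n : ℕ, (n : ℝ) * g n : ℝ) : ℂ) := by
  have hp0 : p ≠ 0 := by rintro rfl; simp at hp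
  rw [Complex.ofReal_tsum, ← tsum_mul_left]
  refine tsum_congr fun n => ?_
  by_cases hn : g n = 0
  · simp [hn]
  · rcases Nat.eq_zero_or_pos n with h0 | h0
    · subst h0; simp
    · have h1 := gf_extreme g hgn hs p hp h n hn
      have h2 : p ^ (n - 1) = gf g p * p⁻¹ := by
        rw [← h1, eq_mul_inv_iff_mul_eq₀ hp0, ← pow_succ, Nat.sub_add_cancel h0]
      rw [h2]
      push_cast
      ring

theorem bd_deriv (N : ℕ) (A : ℕ) (g : ℕ → ℕ → ℝ)
    (hgn : ∀ j < N, ∀ n, 0 ≤ g j n) (hsum : ∀ j < N, HasSum (g j) 1)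
    (hmom : ∀ j < N, Summable fun n : ℕ => (n : ℝ) * g j n)
    (hmean : ∑ j ∈ range N, ∑' n : ℕ, (n : ℝ) * g j n < A) (p : ℂ) (hp : ‖p‖ = 1)
    (h : p ^ A - ∏ j ∈ range N, gf (g j) p = 0) :
    ∃ d : ℂ, d ≠ 0 ∧ HasDerivWithinAt (fun s => s ^ A - ∏ j ∈ range N, gf (g j) s) d
      (closedBall 0 1) p := by
  have hp0 : p ≠ 0 := by rintro rfl; simp at hp
  have hprod : ∏ j ∈ range N, gf (g j) p = p ^ A := (sub_eq_zero.1 h).symm
  have hn1 : ∏ j ∈ range N, ‖gf (g j) p‖ = 1 := by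
    rw [← norm_prod, hprod, norm_pow, hp, one_pow]
  have hone : ∀ j < N, ‖gf (g j) p‖ = 1 := by
    intro j hj
    have hle : ∀ i ∈ range N, ‖gf (g i) p‖ ≤ 1 := fun i hi =>
      gf_norm_le _ (hgn i (Finset.mem_range.1 hi)) (hsum i (Finset.mem_range.1 hi)) p hp.le
    refine le_antisymm (hle j (Finset.mem_range.2 hj)) ?_
    rw [← hn1, ← Finset.mul_prod_erase _ _ (Finset.mem_range.2 hj)]
    refine mul_le_of_le_one_right (norm_nonneg _) ?_
    exact Finset.prod_le_one (fun _ _ => norm_nonneg _) fun i hi => hle i (Finset.mem_of_mem_erase hi)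
  have hd : HasDerivWithinAt (fun s => s ^ A - ∏ j ∈ range N, gf (g j) s)
      (A * p ^ (A - 1) - ∑ i ∈ range N, (∏ j ∈ (range N).erase i, gf (g j) p) •
        (gf (g i) p * p⁻¹ * ((∑' n : ℕ, (n : ℝ) * g i n : ℝ) : ℂ))) (closedBall 0 1) p := by
    refine ((hasDerivAt_pow A p).hasDerivWithinAt).sub ?_
    refine HasDerivWithinAt.fun_finsetProd fun i hi => ?_
    have hi' := Finset.mem_range.1 hi
    rw [← gf_extreme_deriv (g i) (hgn i hi') (hsum i hi') p hp (hone i hi')]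
    exact gf_hasDeriv (g i) (hgn i hi') (hsum i hi').summable (hmom i hi') p hp.le
  refine ⟨_, ?_, hd⟩
  have h1 : ∑ i ∈ range N, (∏ j ∈ (range N).erase i, gf (g j) p) •
        (gf (g i) p * p⁻¹ * ((∑' n : ℕ, (n : ℝ) * g i n : ℝ) : ℂ)) =
      p ^ A * p⁻¹ * ((∑ i ∈ range N, ∑' n : ℕ, (n : ℝ) * g i n : ℝ) : ℂ) := by
    rw [Complex.ofReal_sum, Finset.mul_sum]
    refine Finset.sum_congr rfl fun i hi => ?_
    rw [smul_eq_mul, ← hprod, ← Finset.prod_erase_mul _ _ hi]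
    ring
  have h2 : (A : ℂ) * p ^ (A - 1) = p ^ A * p⁻¹ * ((A : ℝ) : ℂ) := by
    rcases Nat.eq_zero_or_pos A with h0 | h0
    · subst h0; simp
    · have : p ^ A * p⁻¹ = p ^ (A - 1) := by
        rw [mul_inv_eq_iff_eq_mul₀ hp0, ← pow_succ, Nat.sub_add_cancel h0]
      rw [this]
      push_cast
      ring
  rw [h1, h2, ← mul_sub, ← Complex.ofReal_sub]
  refine mul_ne_zero (mul_ne_zero (pow_ne_zero _ hp0) (inv_ne_zero hp0)) ?_
  exact_mod_cast (sub_pos.2 hmean).ne'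

end Pool.Agent.Q222.RE
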