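import Mathlib

open Finset Filter Topology MeasureTheory

namespace Pool.Agent.Q222.RE

theorem four_pow (n : ℕ) (x : UnitAddCircle) :
    fourier (n : ℤ) x = ((AddCircle.toCircle x : Circle) : ℂ) ^ n := by
  rw [fourier_apply, AddCircle.toCircle_zsmul]
  simp

/-- Parseval for trigonometric polynomials, as an inequality -/
theorem par_poly (c : ℕ → ℂ) (m : ℕ) (B : ℝ) (hB : 0 ≤ B)
    (h : ∀ z : ℂ, ‖z‖ = 1 → ‖∑ n ∈ range m, c n * z ^ n‖ ≤ B) :
    ∑ n ∈ range m, ‖c n‖ ^ 2 ≤ B ^ 2 := by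
  set G : C(UnitAddCircle, ℂ) := ∑ n ∈ range m, c n • fourier (n : ℤ) with hG
  have h1 : ‖G‖ ≤ B := by
    rw [ContinuousMap.norm_le _ hB]
    intro x
    have : G x = ∑ n ∈ range m, c n * ((AddCircle.toCircle x : Circle) : ℂ) ^ n := by
      rw [hG]
      simp only [ContinuousMap.coe_sum, Finset.sum_apply, ContinuousMap.coe_smul, Pi.smul_apply,
        smul_eq_mul]
      exact Finset.sum_congr rfl fun n _ => by rw [four_pow]
    rw [this]
    exact h _ (Circle.norm_coe _)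
  have h2 : ‖ContinuousMap.toLp (E := ℂ) 2 (AddCircle.haarAddCircle (T := (1 : ℝ))) ℂ G‖ ≤ B := by
    refine ((ContinuousMap.toLp (E := ℂ) 2 (AddCircle.haarAddCircle (T := (1 : ℝ))) ℂ).le_opNorm G).trans ?_
    have h3 : ‖ContinuousMap.toLp (E := ℂ) 2 (AddCircle.haarAddCircle (T := (1 : ℝ))) ℂ‖ ≤ 1 := by
      refine (ContinuousMap.toLp_norm_le _).trans ?_
      have h30 : measureUnivNNReal (AddCircle.haarAddCircle (T := (1 : ℝ))) = 1 := by
        rw [← ENNReal.coe_inj, coe_measureUnivNNReal]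
        simp
      rw [h30]
      simp
    calc _ ≤ 1 * B := mul_le_mul h3 h1 (norm_nonneg _) zero_le_one
      _ = B := one_mul _
  have h4 : ContinuousMap.toLp (E := ℂ) 2 (AddCircle.haarAddCircle (T := (1 : ℝ))) ℂ G =
      ∑ n ∈ range m, c n • fourierLp (T := (1 : ℝ)) 2 (n : ℤ) := by
    rw [hG, map_sum]
    exact Finset.sum_congr rfl fun n _ => by rw [map_smul]
  have hon : Orthonormal ℂ fun n : ℕ => fourierLp (T := (1 : ℝ)) 2 (n : ℤ) :=
    (orthonormal_fourier (T := (1 : ℝ))).comp _ Nat.cast_injective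
  have h5 := hon.inner_sum c c (range m)
  have h6 : ‖ContinuousMap.toLp (E := ℂ) 2 (AddCircle.haarAddCircle (T := (1 : ℝ))) ℂ G‖ ^ 2 =
      ∑ n ∈ range m, ‖c n‖ ^ 2 := by
    rw [h4]
    have h7 := inner_self_eq_norm_sq_to_K (𝕜 := ℂ) (∑ n ∈ range m, c n • fourierLp (T := (1 : ℝ)) 2 (n : ℤ))
    rw [h5] at h7
    have h8 : ∑ i ∈ range m, (starRingEnd ℂ) (c i) * c i = ((∑ n ∈ range m, ‖c n‖ ^ 2 : ℝ) : ℂ) := by
      push_cast
      refine Finset.sum_congr rfl fun i _ => ?_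
      rw [Complex.conj_mul']
    rw [h8] at h7
    have h9 : ((∑ n ∈ range m, ‖c n‖ ^ 2 : ℝ) : ℂ) = ((‖∑ n ∈ range m, c n • fourierLp (T := (1 : ℝ)) 2 (n : ℤ)‖ ^ 2 : ℝ) : ℂ) := by
      rw [h7]; push_cast; rfl
    exact (Complex.ofReal_injective h9).symm
  rw [← h6]
  exact pow_le_pow_left₀ (norm_nonneg _) h2 2

theorem l2_of_bdd (h : ℕ → ℂ) (M : ℝ) (f : ℂ → ℂ)
    (hf : ∀ s : ℂ, ‖s‖ < 1 → HasSum (fun n => h n * s ^ n) (f s))
    (hb : ∀ s : ℂ, ‖s‖ < 1 → ‖f s‖ ≤ M) : Summable fun n => ‖h n‖ ^ 2 := by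
  have hM : 0 ≤ M := (norm_nonneg _).trans (hb 0 (by simp))
  have key : ∀ m0 : ℕ, ∀ r : ℝ, 0 < r → r < 1 →
      ∑ n ∈ range m0, ‖h n * (r : ℂ) ^ n‖ ^ 2 ≤ M ^ 2 := by
    intro m0 r hr0 hr1
    have hsr : Summable fun n => ‖h n * (r : ℂ) ^ n‖ :=
      (hf r (by rw [Complex.norm_real, Real.norm_of_nonneg hr0.le]; exact hr1)).summable.norm
    have hle : ∀ m ≥ m0, ∑ n ∈ range m0, ‖h n * (r : ℂ) ^ n‖ ^ 2 ≤
        (M + ∑' n, ‖h (n + m) * (r : ℂ) ^ (n + m)‖) ^ 2 := by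
      intro m hm
      have htail : 0 ≤ ∑' n, ‖h (n + m) * (r : ℂ) ^ (n + m)‖ := tsum_nonneg fun _ => norm_nonneg _
      refine le_trans (Finset.sum_le_sum_of_subset_of_nonneg (Finset.range_mono hm)
        (fun _ _ _ => sq_nonneg _)) ?_
      refine par_poly (fun n => h n * (r : ℂ) ^ n) m _ (by linarith) ?_
      intro z hz
      have hrz : ‖(r : ℂ) * z‖ < 1 := by
        rw [norm_mul, hz, mul_one, Complex.norm_real, Real.norm_of_nonneg hr0.le]; exact hr1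
      have h1 := hf _ hrz
      have h2 := h1.summable.sum_add_tsum_nat_add m
      rw [h1.tsum_eq] at h2
      have h3 : ∑ n ∈ range m, h n * (r : ℂ) ^ n * z ^ n = f (r * z) - ∑' n, h (n + m) * ((r : ℂ) * z) ^ (n + m) := by
        rw [← h2, add_sub_cancel_right]
        exact Finset.sum_congr rfl fun n _ => by rw [mul_pow, mul_assoc]
      rw [h3]
      refine (norm_sub_le _ _).trans (add_le_add (hb _ hrz) ?_)
      have h4 : ∀ n, ‖h (n + m) * ((r : ℂ) * z) ^ (n + m)‖ = ‖h (n + m) * (r : ℂ) ^ (n + m)‖ := by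
        intro n
        rw [norm_mul, norm_mul, norm_pow, norm_pow, norm_mul, hz, mul_one]
      refine (norm_tsum_le_tsum_norm ?_).trans (le_of_eq (tsum_congr h4))
      exact ((summable_nat_add_iff m).2 hsr).congr fun n => (h4 n).symm
    have hlim : Tendsto (fun m => (M + ∑' n, ‖h (n + m) * (r : ℂ) ^ (n + m)‖) ^ 2) atTop
        (𝓝 ((M + 0) ^ 2)) := by
      have := tendsto_sum_nat_add (fun n => ‖h n * (r : ℂ) ^ n‖)
      exact (tendsto_const_nhds.add this).pow 2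
    rw [add_zero] at hlim
    exact ge_of_tendsto hlim (eventually_atTop.2 ⟨m0, fun m hm => hle m hm⟩)
  refine summable_of_sum_range_le (c := M ^ 2) (fun _ => sq_nonneg _) ?_
  intro m0
  have hc : Tendsto (fun r : ℝ => ∑ n ∈ range m0, ‖h n * (r : ℂ) ^ n‖ ^ 2) (𝓝[<] 1)
      (𝓝 (∑ n ∈ range m0, ‖h n * ((1 : ℝ) : ℂ) ^ n‖ ^ 2)) := by
    have : Continuous fun r : ℝ => ∑ n ∈ range m0, ‖h n * (r : ℂ) ^ n‖ ^ 2 := by fun_prop
    exact (this.tendsto 1).mono_left nhdsWithin_le_nhds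
  have h2 : ∑ n ∈ range m0, ‖h n * ((1 : ℝ) : ℂ) ^ n‖ ^ 2 = ∑ n ∈ range m0, ‖h n‖ ^ 2 :=
    Finset.sum_congr rfl fun n _ => by simp
  rw [h2] at hc
  refine le_of_tendsto hc ?_
  have : Set.Ioo (0 : ℝ) 1 ∈ 𝓝[<] (1 : ℝ) := Ioo_mem_nhdsLT one_pos
  filter_upwards [this] with r hr
  exact key m0 r hr.1 hr.2

end Pool.Agent.Q222.RE
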