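import Pool.Agent.Q222.RE.Alg
import Pool.Agent.Q222.RE.Par
import Pool.Agent.Q222.RE.Div
import Pool.Agent.Q222.RE.Gen

open Filter Topology Metric Finset PowerSeries

namespace Pool.Agent.Q222.RE

/-- `u` is the expansion of `f` in the open unit disc -/
def Ev (u : PowerSeries ℂ) (f : ℂ → ℂ) : Prop :=
  ∀ s : ℂ, ‖s‖ < 1 → HasSum (fun n => coeff n u * s ^ n) (f s)

theorem Ev.add {u v : PowerSeries ℂ} {f g : ℂ → ℂ} (hu : Ev u f) (hv : Ev v g) :
    Ev (u + v) (fun s => f s + g s) := by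
  intro s hs
  have := (hu s hs).add (hv s hs)
  refine this.congr_fun ?_ |> fun h => h
  intro n
  rw [map_add]; ring

theorem Ev.mul {u v : PowerSeries ℂ} {f g : ℂ → ℂ} (hu : Ev u f) (hv : Ev v g) :
    Ev (u * v) (fun s => f s * g s) := by
  intro s hs
  have h1 := (hu s hs).summable.norm
  have h2 := (hv s hs).summable.norm
  have h3 := (summable_norm_sum_mul_antidiagonal_of_summable_norm h1 h2).of_norm
  have h4 := tsum_mul_tsum_eq_tsum_sum_antidiagonal_of_summable_norm h1 h2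
  rw [(hu s hs).tsum_eq, (hv s hs).tsum_eq] at h4
  have h5 := h3.hasSum
  rw [← h4] at h5
  refine h5.congr_fun ?_ |> fun h => h
  intro n
  rw [PowerSeries.coeff_mul, Finset.sum_mul]
  refine Finset.sum_congr rfl fun x hx => ?_
  rw [← Finset.HasAntidiagonal.mem_antidiagonal.1 hx, pow_add]
  ring

theorem Ev.zero : Ev 0 (fun _ => 0) := by
  intro s _
  simpa using (hasSum_zero : HasSum (fun _ : ℕ => (0 : ℂ)) 0)

theorem Ev.one : Ev 1 (fun _ => 1) := by
  intro s _
  have : HasSum (fun n => coeff n (1 : PowerSeries ℂ) * s ^ n) (coeff 0 (1 : PowerSeries ℂ) * s ^ 0) := by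
    refine hasSum_single 0 fun n hn => ?_
    rw [PowerSeries.coeff_one, if_neg hn, zero_mul]
  simpa using this

theorem Ev.X : Ev PowerSeries.X (fun s => s) := by
  intro s _
  have : HasSum (fun n => coeff n (PowerSeries.X : PowerSeries ℂ) * s ^ n)
      (coeff 1 (PowerSeries.X : PowerSeries ℂ) * s ^ 1) := by
    refine hasSum_single 1 fun n hn => ?_
    rw [PowerSeries.coeff_X, if_neg hn, zero_mul]
  simpa using this

theorem Ev.X_pow (k : ℕ) : Ev (PowerSeries.X ^ k) (fun s => s ^ k) := by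
  induction k with
  | zero => simpa using Ev.one
  | succ k ih => simpa [pow_succ] using ih.mul Ev.X

theorem Ev.sum {ι : Type*} (S : Finset ι) {u : ι → PowerSeries ℂ} {f : ι → ℂ → ℂ}
    (h : ∀ i ∈ S, Ev (u i) (f i)) : Ev (∑ i ∈ S, u i) (fun s => ∑ i ∈ S, f i s) := by
  classical
  induction S using Finset.induction_on with
  | empty => simpa using Ev.zero
  | insert i S hi ih =>
    simp only [Finset.sum_insert hi]
    exact (h i (Finset.mem_insert_self _ _)).add
      (ih fun j hj => h j (Finset.mem_insert_of_mem hj))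

theorem Ev.prod {ι : Type*} (S : Finset ι) {u : ι → PowerSeries ℂ} {f : ι → ℂ → ℂ}
    (h : ∀ i ∈ S, Ev (u i) (f i)) : Ev (∏ i ∈ S, u i) (fun s => ∏ i ∈ S, f i s) := by
  classical
  induction S using Finset.induction_on with
  | empty => simpa using Ev.one
  | insert i S hi ih =>
    simp only [Finset.prod_insert hi]
    exact (h i (Finset.mem_insert_self _ _)).mul
      (ih fun j hj => h j (Finset.mem_insert_of_mem hj))

theorem Ev.gf (g : ℕ → ℝ) (hgn : ∀ n, 0 ≤ g n) (hs : Summable g) : Ev (ps g) (gf g) := by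
  intro s h
  have := (gf_summable g hgn hs s h.le).hasSum
  refine this.congr_fun ?_ |> fun h => h
  intro n
  simp [ps]

theorem Ev.poly (q : PowerSeries ℂ) (a : ℕ) (hq : ∀ n, a ≤ n → coeff n q = 0) :
    Ev q (fun s => ∑ n ∈ range a, coeff n q * s ^ n) := by
  intro s _
  refine hasSum_sum_of_ne_finset_zero fun n hn => ?_
  rw [hq n (by simpa using hn), zero_mul]

theorem Ev.unique {u v : PowerSeries ℂ} {f : ℂ → ℂ} (hu : Ev u f) (hv : Ev v f) : u = v := by
  set p : FormalMultilinearSeries ℂ ℂ ℂ := FormalMultilinearSeries.ofScalars ℂ (fun n => coeff n (u - v))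
  have hp : HasFPowerSeriesAt (0 : ℂ → ℂ) p 0 := by
    rw [hasFPowerSeriesAt_iff]
    have : ball (0 : ℂ) 1 ∈ 𝓝 (0 : ℂ) := ball_mem_nhds _ one_pos
    filter_upwards [this] with z hz
    have hz' : ‖z‖ < 1 := by simpa using hz
    have h1 := (hu z hz').sub (hv z hz')
    rw [sub_self] at h1
    refine h1.congr_fun ?_ |> fun h => by simpa using h
    intro n
    simp only [p, FormalMultilinearSeries.coeff_ofScalars, smul_eq_mul, map_sub]
    ring
  have h0 := hp.eq_zero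
  ext n
  have h1 : p.coeff n = 0 := by rw [h0]; simp [FormalMultilinearSeries.coeff]
  rw [FormalMultilinearSeries.coeff_ofScalars, map_sub] at h1
  exact sub_eq_zero.1 h1

theorem main_core (N : ℕ) (a : ℕ → ℕ) (g : ℕ → ℕ → ℝ) (hg0 : ∀ j < N, 0 < g j 0)
    (hgn : ∀ j < N, ∀ n, 0 ≤ g j n) (hsum : ∀ j < N, HasSum (g j) 1)
    (hmom : ∀ j < N, Summable fun n : ℕ => (n : ℝ) * g j n)
    (b : ℕ → ℕ) (hb : ∀ j < N, b j = a j + b (j + 1)) (hbN : b N = 0) (hb0 : 0 < b 0)
    (hmean : ∑ j ∈ range N, ∑' n : ℕ, (n : ℝ) * g j n < b 0)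
    (q : ℕ → PowerSeries ℂ) (hq : ∀ j < N, ∀ n, a j ≤ n → coeff n (q j) = 0)
    (Ψ Φ : ℂ → ℂ) (hΨ : ∀ s, Ψ s = s ^ b 0 - ∏ j ∈ range N, gf (g j) s)
    (hΦ : ∀ s, Φ s = ∑ j ∈ range N, (∏ i ∈ range j, gf (g i) s) *
      (∑ n ∈ range (a j), coeff n (q j) * s ^ n) * s ^ b (j + 1))
    (hint : ∀ α : ℂ, ‖α‖ < 1 → analyticOrderAt Ψ α ≤ analyticOrderAt Φ α)
    (hbd : ∀ α : ℂ, ‖α‖ = 1 → Ψ α = 0 → Φ α = 0) : ∀ j < N, q j = 0 := by
  have hΨe : Ψ = fun s => s ^ b 0 - ∏ j ∈ range N, gf (g j) s := funext hΨ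
  have hΦe : Φ = fun s => ∑ j ∈ range N, (∏ i ∈ range j, gf (g i) s) *
      (∑ n ∈ range (a j), coeff n (q j) * s ^ n) * s ^ b (j + 1) := funext hΦ
  have hgd : ∀ j < N, DifferentiableOn ℂ (gf (g j)) (closedBall 0 1) := fun j hj p hp =>
    (gf_hasDeriv (g j) (hgn j hj) (hsum j hj).summable (hmom j hj) p
      (by simpa using hp)).differentiableWithinAt
  have hdΨ : DifferentiableOn ℂ Ψ (closedBall 0 1) := by
    rw [hΨe]
    refine DifferentiableOn.sub (by fun_prop) ?_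
    exact DifferentiableOn.fun_finsetProd fun i hi => hgd i (Finset.mem_range.1 hi)
  have hdΦ : DifferentiableOn ℂ Φ (closedBall 0 1) := by
    rw [hΦe]
    refine DifferentiableOn.fun_sum fun j hj => ?_
    refine DifferentiableOn.mul (DifferentiableOn.mul ?_ (by fun_prop)) (by fun_prop)
    exact DifferentiableOn.fun_finsetProd fun i hi =>
      hgd i ((Finset.mem_range.1 hi).trans (Finset.mem_range.1 hj))
  have hgf0 : ∀ j, gf (g j) 0 = (g j 0 : ℂ) := by
    intro j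
    rw [gf, tsum_eq_single 0 (fun n hn => by simp [hn])]
    simp
  have hΨ0 : Ψ 0 ≠ 0 := by
    rw [hΨ, zero_pow hb0.ne', zero_sub, neg_ne_zero, Finset.prod_ne_zero_iff]
    intro j hj
    rw [hgf0]
    exact_mod_cast (hg0 j (Finset.mem_range.1 hj)).ne'
  obtain ⟨H, M, hH, hHΨ, hHM⟩ := div_bdd Φ Ψ hdΦ hdΨ hΨ0 hint (fun α hα hz => ⟨hbd α hα hz, by
    have h1 := bd_deriv N (b 0) g hgn hsum hmom hmean α hα (by rw [← hΨ]; exact hz)
    rwa [← hΨe] at h1⟩)
  -- expansion of H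
  set h : ℕ → ℂ := fun n => (n.factorial : ℂ)⁻¹ * iteratedDeriv n H 0 with hh
  set hp : PowerSeries ℂ := PowerSeries.mk h with hhp
  have hEH : Ev hp H := by
    intro s hs
    have h1 := Complex.hasSum_taylorSeries_on_ball (z := s) hH (by simpa using hs)
    refine h1.congr_fun ?_ |> fun h => h
    intro n
    rw [hhp, PowerSeries.coeff_mk, hh]
    simp only [sub_zero, smul_eq_mul]
    ring
  have hl2 : Summable fun n => ‖coeff n hp‖ ^ 2 :=
    l2_of_bdd (fun n => coeff n hp) M H hEH (fun s hs => hHM s (by simpa using hs))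
  -- the chain
  set T : ℕ → PowerSeries ℂ := fun j => (∏ i ∈ Ico j N, ps (g i)) * hp +
    ∑ l ∈ Ico j N, (∏ i ∈ Ico j l, ps (g i)) * q l * X ^ b (l + 1) with hT
  have hTN : T N = hp := by simp [hT]
  have hT0 : T 0 = X ^ b 0 * T N := by
    rw [hTN]
    have e1 : Ev (T 0) (fun s => (∏ i ∈ Ico 0 N, gf (g i) s) * H s +
        ∑ l ∈ Ico 0 N, (∏ i ∈ Ico 0 l, gf (g i) s) *
          (∑ n ∈ range (a l), coeff n (q l) * s ^ n) * s ^ b (l + 1)) := by
      refine Ev.add (Ev.mul (Ev.prod _ fun i hi => ?_) hEH) (Ev.sum _ fun l hl => ?_)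
      · exact Ev.gf _ (hgn i (Finset.mem_Ico.1 hi).2) (hsum i (Finset.mem_Ico.1 hi).2).summable
      · have hl' := (Finset.mem_Ico.1 hl).2
        refine Ev.mul (Ev.mul (Ev.prod _ fun i hi => ?_) (Ev.poly _ _ (hq l hl'))) (Ev.X_pow _)
        have hi' := (Finset.mem_Ico.1 hi).2.trans hl'
        exact Ev.gf _ (hgn i hi') (hsum i hi').summable
    have e2 : Ev (X ^ b 0 * hp) (fun s => s ^ b 0 * H s) := (Ev.X_pow _).mul hEH
    have e3 : Ev (T 0) (fun s => s ^ b 0 * H s) := by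
      intro s hs
      have h1 := e1 s hs
      have h2 := hHΨ s (by simpa using hs)
      have h3 : (∏ i ∈ Ico 0 N, gf (g i) s) * H s +
        ∑ l ∈ Ico 0 N, (∏ i ∈ Ico 0 l, gf (g i) s) *
          (∑ n ∈ range (a l), coeff n (q l) * s ^ n) * s ^ b (l + 1) = s ^ b 0 * H s := by
        rw [hΨ, hΦ] at h2
        simp only [← Finset.range_eq_Ico]
        rw [← h2]
        ring
      simp only [h3] at h1
      exact h1
    exact e3.unique e2
  refine alg_core N a g hg0 hgn hsum q hq b hb hbN T ?_ hT0 (by rw [hTN]; exact hl2)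
  intro j hj
  simp only [hT]
  rw [Finset.prod_eq_prod_Ico_succ_bot hj, Finset.sum_eq_sum_Ico_succ_bot hj, Finset.Ico_self,
    Finset.prod_empty, one_mul, mul_add, Finset.mul_sum]
  have : ∀ l ∈ Ico (j + 1) N, (∏ i ∈ Ico j l, ps (g i)) * q l * X ^ b (l + 1) =
      ps (g j) * ((∏ i ∈ Ico (j + 1) l, ps (g i)) * q l * X ^ b (l + 1)) := by
    intro l hl
    rw [Finset.prod_eq_prod_Ico_succ_bot (by have := (Finset.mem_Ico.1 hl).1; omega)]
    ring
  rw [Finset.sum_congr rfl this]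
  ring

end Pool.Agent.Q222.RE
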