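import Pool.Agent.Q222.RE.Wrap

open MeasureTheory ProbabilityTheory Finset Filter Topology Metric

namespace Pool.Agent.Q222.RE

theorem ord_eq (f g u : ℂ → ℂ) (α : ℂ) (hu : AnalyticAt ℂ u α) (hu0 : u α ≠ 0)
    (hg : AnalyticAt ℂ g α) (h : ∀ᶠ s in 𝓝 α, f s = u s * g s) :
    analyticOrderAt f α = analyticOrderAt g α := by
  have h1 : analyticOrderAt f α = analyticOrderAt (u * g) α := analyticOrderAt_congr h
  rw [h1, analyticOrderAt_mul hu hg, hu.analyticOrderAt_eq_zero.2 hu0, zero_add]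

variable {Ω : Type*} [MeasurableSpace Ω] (P : Measure Ω) [IsProbabilityMeasure P]
variable (N : ℕ) (X : ℕ → Ω → ℤ) (m : ℕ → ℤ)

theorem poly_id (a : ℕ) (C : ℕ → ℂ) (D : ℕ → ℝ) (s : ℂ) :
    ∑ k ∈ range a, C k * ∑ r ∈ range (a - k), s ^ (r + k) * (D r : ℂ) =
      ∑ n ∈ range a, (∑ k ∈ range (n + 1), C k * (D (n - k) : ℂ)) * s ^ n := by
  have h := Finset.sum_range_diag_flip a (fun k r => C k * (s ^ (r + k) * (D r : ℂ)))
  simp only [Finset.mul_sum]
  rw [← h]
  refine Finset.sum_congr rfl fun n _ => ?_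
  rw [Finset.sum_mul]
  refine Finset.sum_congr rfl fun k hk => ?_
  have : n - k + k = n := by have := Finset.mem_range.1 hk; omega
  rw [this]; ring

/-- extension of a vector indexed by the columns -/
noncomputable def ext (c : Col m N → ℂ) (j k : ℕ) : ℂ :=
  if h : j < N then (if h' : k < cols m j then c ⟨⟨j, h⟩, ⟨k, h'⟩⟩ else 0) else 0

theorem sum_col (c : Col m N → ℂ) (f : ℕ → ℕ → ℂ) :
    ∑ x : Col m N, f x.1 x.2 * c x =
      ∑ j ∈ range N, ∑ k ∈ range (cols m j), ext N m c j k * f j k := by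
  rw [Fintype.sum_sigma, Finset.sum_range]
  refine Finset.sum_congr rfl fun j _ => ?_
  rw [Finset.sum_range]
  refine Finset.sum_congr rfl fun k _ => ?_
  rw [ext, dif_pos j.2, dif_pos k.2, mul_comm]

/-- the total function `Σ c_{j,k} φ_{j,k}` -/
noncomputable def tot (c : Col m N → ℂ) (s : ℂ) : ℂ :=
  ∑ j ∈ range N, ∑ k ∈ range (cols m j), ext N m c j k * phi P X m j k s

noncomputable def bb (j : ℕ) : ℕ := ∑ i ∈ Ico j N, cols m i

noncomputable def qq (c : Col m N → ℂ) (j : ℕ) : PowerSeries ℂ :=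
  PowerSeries.mk fun n => if n < cols m j then
    ∑ k ∈ range (n + 1), ext N m c j k * (dist P (X j) (m j + ((n - k : ℕ) : ℤ)) : ℂ) else 0

noncomputable def PhiH (c : Col m N → ℂ) (s : ℂ) : ℂ :=
  ∑ j ∈ range N, (∏ i ∈ range j, gf (law P X m i) s) *
      (∑ n ∈ range (cols m j), PowerSeries.coeff n (qq P N X m c j) * s ^ n) * s ^ bb N m (j + 1)

noncomputable def PsiH (s : ℂ) : ℂ := s ^ bb N m 0 - ∏ j ∈ range N, gf (law P X m j) s

section
variable (hX : ∀ j < N, Measurable (X j)) (hind : iIndepFun (fun j : Fin N => X j) P)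
  (hm : ∀ j < N, IsLeast {k : ℤ | P {ω | X j ω = k} ≠ 0} (m j)) (hm0 : ∀ j < N, m j ≤ 0)
include hX hind hm hm0

theorem pw (j : ℕ) (hj : j < N) (s : ℂ) (hs0 : s ≠ 0) :
    s ^ (m j) * (∏ i ∈ range j, s ^ (m i)) * s ^ bb N m 0 = s ^ bb N m (j + 1) := by
  have h1 : ∏ i ∈ range j, s ^ (m i) = s ^ (∑ i ∈ range j, m i) := by
    clear hj
    induction j with
    | zero => simp
    | succ k ih => rw [Finset.prod_range_succ, Finset.sum_range_succ, zpow_add₀ hs0, ih]
  rw [h1, ← zpow_natCast, ← zpow_natCast, ← zpow_add₀ hs0, ← zpow_add₀ hs0]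
  congr 1
  have h2 : (bb N m 0 : ℤ) = ∑ i ∈ range (j + 1), (cols m i : ℤ) + bb N m (j + 1) := by
    unfold bb
    rw [← Finset.range_eq_Ico, ← Finset.sum_range_add_sum_Ico _ hj]
    push_cast
    rfl
  have h3 : ∑ i ∈ range (j + 1), (cols m i : ℤ) = -∑ i ∈ range (j + 1), m i := by
    rw [← Finset.sum_neg_distrib]
    refine Finset.sum_congr rfl fun i hi => ?_
    have := hm0 i (by have := Finset.mem_range.1 hi; omega)
    unfold cols
    omega
  rw [h2, h3, Finset.sum_range_succ]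
  ring

theorem phi_eq (j k : ℕ) (hj : j < N) (s : ℂ) (hs : ‖s‖ ≤ 1) (hs0 : s ≠ 0) :
    phi P X m j k s = (s ^ (m j) * ∏ i ∈ range j, (s ^ (m i) * gf (law P X m i) s)) *
      ∑ r ∈ range (cols m j - k), s ^ (r + k) * (dist P (X j) (m j + r) : ℂ) := by
  rw [phi, wt, pgf_psum P N X m hX hind hm j hj.le s hs hs0]

theorem tot_eq (c : Col m N → ℂ) (s : ℂ) (hs : ‖s‖ ≤ 1) (hs0 : s ≠ 0) :
    PhiH P N X m c s = s ^ bb N m 0 * tot P N X m c s := by
  unfold PhiH tot
  rw [Finset.mul_sum]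
  refine Finset.sum_congr rfl fun j hj => ?_
  have hj' := Finset.mem_range.1 hj
  have h1 : ∑ k ∈ range (cols m j), ext N m c j k * phi P X m j k s =
      (s ^ (m j) * ∏ i ∈ range j, (s ^ (m i) * gf (law P X m i) s)) *
        ∑ n ∈ range (cols m j), PowerSeries.coeff n (qq P N X m c j) * s ^ n := by
    have h2 : ∑ n ∈ range (cols m j), PowerSeries.coeff n (qq P N X m c j) * s ^ n =
        ∑ n ∈ range (cols m j), (∑ k ∈ range (n + 1), ext N m c j k *
          ((fun r : ℕ => dist P (X j) (m j + r)) (n - k) : ℂ)) * s ^ n := by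
      refine Finset.sum_congr rfl fun n hn => ?_
      rw [qq, PowerSeries.coeff_mk, if_pos (Finset.mem_range.1 hn)]
    have h3 := poly_id (cols m j) (fun k => ext N m c j k)
      (fun r : ℕ => dist P (X j) (m j + r)) s
    rw [h2.trans h3.symm, Finset.mul_sum]
    refine Finset.sum_congr rfl fun k _ => ?_
    rw [phi_eq P N X m hX hind hm hm0 j k hj' s hs hs0]
    ring
  rw [h1, ← pw P N X m hX hind hm hm0 j hj' s hs0, Finset.prod_mul_distrib]
  ring

theorem psi_eq (s : ℂ) (hs : ‖s‖ ≤ 1) (hs0 : s ≠ 0) :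
    pgf P (psum X N) s = 1 - (s ^ bb N m 0)⁻¹ * PsiH P N X m s := by
  rw [pgf_psum P N X m hX hind hm N le_rfl s hs hs0, Finset.prod_mul_distrib, PsiH, mul_sub,
    inv_mul_cancel₀ (pow_ne_zero _ hs0), sub_sub_cancel]
  congr 1
  have h1 : ∏ i ∈ range N, s ^ (m i) = s ^ (∑ i ∈ range N, m i) := by
    clear hX hind hm hm0
    induction N with
    | zero => simp
    | succ k ih => rw [Finset.prod_range_succ, Finset.sum_range_succ, zpow_add₀ hs0, ih]
  rw [h1, ← zpow_natCast, ← zpow_neg]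
  congr 1
  unfold bb
  rw [← Finset.range_eq_Ico]
  push_cast
  rw [← Finset.sum_neg_distrib]
  refine Finset.sum_congr rfl fun i hi => ?_
  have := hm0 i (Finset.mem_range.1 hi)
  unfold cols
  omega

theorem gf_an (j : ℕ) (hj : j < N) (hmom : Summable fun n : ℕ => (n : ℝ) * law P X m j n) (α : ℂ)
    (hα : ‖α‖ < 1) : AnalyticAt ℂ (gf (law P X m j)) α := by
  have h1 : DifferentiableOn ℂ (gf (law P X m j)) (ball 0 1) := fun p hp =>
    ((gf_hasDeriv _ (law_nonneg P X m j) (law_sum P X m j (hX j hj)).summable hmom p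
      (by have := (by simpa using hp : ‖p‖ < 1); exact this.le)).differentiableWithinAt).mono
      ball_subset_closedBall
  exact h1.analyticAt (isOpen_ball.mem_nhds (by simpa using hα))

theorem phi_an (hmom : ∀ j < N, Summable fun n : ℕ => (n : ℝ) * law P X m j n)
    (j k : ℕ) (hj : j < N) (α : ℂ) (hα : ‖α‖ < 1) (hα0 : α ≠ 0) :
    AnalyticAt ℂ (phi P X m j k) α := by
  have h1 : AnalyticAt ℂ (fun s => (s ^ (m j) * ∏ i ∈ range j, (s ^ (m i) * gf (law P X m i) s)) *
      ∑ r ∈ range (cols m j - k), s ^ (r + k) * (dist P (X j) (m j + r) : ℂ)) α := by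
    refine AnalyticAt.mul (AnalyticAt.mul (analyticAt_id.zpow hα0) ?_) (by fun_prop)
    refine Finset.analyticAt_fun_prod _ fun i hi => ?_
    exact (analyticAt_id.zpow hα0).mul (gf_an P N X m hX hind hm hm0 i
      ((Finset.mem_range.1 hi).trans hj) (hmom i ((Finset.mem_range.1 hi).trans hj)) α hα)
  refine h1.congr ?_
  have h2 : ∀ᶠ s in 𝓝 α, ‖s‖ < 1 := (continuous_norm.tendsto α).eventually (gt_mem_nhds hα)
  have h3 : ∀ᶠ s in 𝓝 α, s ≠ 0 := isOpen_ne.mem_nhds hα0
  filter_upwards [h2, h3] with s h4 h5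
  exact (phi_eq P N X m hX hind hm hm0 j k hj s h4.le h5).symm

theorem ker_zero (hD : ∑ j ∈ range N, m j < 0)
    (hmean : ∫ ω, ((psum X N ω : ℤ) : ℝ) ∂P < 0) (c : Col m N → ℂ)
    (hc : (matA P X m N).mulVec c = 0) : c = 0 := by
  obtain ⟨hmom, hmean'⟩ := mean_lem P N X m hX hm hmean
  have hbz : (bb N m 0 : ℤ) = -∑ j ∈ range N, m j := by
    unfold bb
    rw [← Finset.range_eq_Ico]
    push_cast
    rw [← Finset.sum_neg_distrib]
    refine Finset.sum_congr rfl fun i hi => ?_
    have := hm0 i (Finset.mem_range.1 hi)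
    unfold cols
    omega
  have hb0 : 0 < bb N m 0 := by omega
  have hbR : ((-∑ j ∈ range N, m j : ℤ) : ℝ) = (bb N m 0 : ℝ) := by
    rw [← hbz]; push_cast; rfl
  have hrow : ∀ (f : ℕ → ℕ → ℂ), (∑ x : Col m N, f x.1 x.2 * c x = 0) →
      ∑ j ∈ range N, ∑ k ∈ range (cols m j), ext N m c j k * f j k = 0 := fun f h => by
    rw [← sum_col]; exact h
  have hΨ0 : PsiH P N X m 0 ≠ 0 := by
    rw [PsiH, zero_pow hb0.ne', zero_sub, neg_ne_zero, Finset.prod_ne_zero_iff]
    intro j hj
    rw [gf, tsum_eq_single 0 (fun n hn => by simp [hn])]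
    have := law_zero P X m j (hX j (Finset.mem_range.1 hj)) (hm j (Finset.mem_range.1 hj))
    simp only [pow_zero, mul_one]
    exact_mod_cast this.ne'
  have hq := main_core N (cols m) (law P X m)
    (fun j hj => law_zero P X m j (hX j hj) (hm j hj)) (fun j _ => law_nonneg P X m j)
    (fun j hj => law_sum P X m j (hX j hj)) hmom (bb N m)
    (fun j hj => by unfold bb; rw [Finset.sum_eq_sum_Ico_succ_bot hj])
    (by unfold bb; simp) hb0 (by rw [← hbR]; exact hmean') (qq P N X m c)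
    (fun j _ n hn => by rw [qq, PowerSeries.coeff_mk, if_neg (not_lt.2 hn)])
    (PsiH P N X m) (PhiH P N X m c) (fun _ => rfl) (fun _ => rfl) ?_ ?_
  · funext x
    obtain ⟨⟨j, hj⟩, ⟨k, hk⟩⟩ := x
    have hD0 : (dist P (X j) (m j) : ℂ) ≠ 0 := by
      have h1 : 0 < dist P (X j) (m j) := by
        rw [dist, measureReal_def, ENNReal.toReal_pos_iff]
        refine ⟨lt_of_lt_of_le (pos_iff_ne_zero.2 (hm j hj).1) (measure_mono ?_), measure_lt_top _ _⟩
        intro ω hω
        simp only [Set.mem_setOf_eq] at hω ⊢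
        omega
      exact_mod_cast h1.ne'
    have key : ∀ n < cols m j, ext N m c j n = 0 := by
      intro n
      induction n using Nat.strong_induction_on with
      | _ n ih =>
        intro hn
        have h1 : PowerSeries.coeff n (qq P N X m c j) = 0 := by rw [hq j hj]; simp
        rw [qq, PowerSeries.coeff_mk, if_pos hn, Finset.sum_range_succ,
          Finset.sum_eq_zero (fun i hi => by
            rw [ih i (Finset.mem_range.1 hi) ((Finset.mem_range.1 hi).trans hn), zero_mul]),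
          zero_add, Nat.sub_self] at h1
        simp only [Nat.cast_zero, add_zero] at h1
        exact (mul_eq_zero.1 h1).resolve_right hD0
    have h2 := key k hk
    rw [ext, dif_pos hj, dif_pos hk] at h2
    exact h2
  · -- interior zeros
    intro α hα
    by_cases hα0 : α = 0
    · subst hα0
      rw [analyticOrderAt_eq_zero.2 (Or.inr hΨ0)]
      exact zero_le
    have h2 : ∀ᶠ s in 𝓝 α, ‖s‖ < 1 := (continuous_norm.tendsto α).eventually (gt_mem_nhds hα)
    have h3 : ∀ᶠ s in 𝓝 α, s ≠ 0 := isOpen_ne.mem_nhds hα0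
    have hΨan : AnalyticAt ℂ (PsiH P N X m) α := by
      unfold PsiH
      refine AnalyticAt.sub (by fun_prop) (Finset.analyticAt_fun_prod _ fun i hi => ?_)
      exact gf_an P N X m hX hind hm hm0 i (Finset.mem_range.1 hi) (hmom i (Finset.mem_range.1 hi)) α hα
    have hGe : ∀ᶠ s in 𝓝 α, pgf P (psum X N) s - 1 = -(s ^ bb N m 0)⁻¹ * PsiH P N X m s := by
      filter_upwards [h2, h3] with s h4 h5
      rw [psi_eq P N X m hX hind hm hm0 s h4.le h5]
      ring
    have hinv : AnalyticAt ℂ (fun s : ℂ => -(s ^ bb N m 0)⁻¹) α :=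
      ((analyticAt_id.pow _).inv (pow_ne_zero _ hα0)).neg
    have hGan : AnalyticAt ℂ (fun s => pgf P (psum X N) s - 1) α :=
      (hinv.mul hΨan).congr (hGe.mono fun s h => h.symm)
    have ho1 := ord_eq (fun s => pgf P (psum X N) s - 1) (PsiH P N X m)
      (fun s => -(s ^ bb N m 0)⁻¹) α hinv (neg_ne_zero.2 (inv_ne_zero (pow_ne_zero _ hα0))) hΨan hGe
    have htan : ∀ j ∈ range N, ∀ k ∈ range (cols m j), AnalyticAt ℂ (phi P X m j k) α :=
      fun j hj k _ => phi_an P N X m hX hind hm hm0 hmom j k (Finset.mem_range.1 hj) α hα hα0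
    have hTan : AnalyticAt ℂ (tot P N X m c) α := by
      unfold tot
      refine Finset.analyticAt_fun_sum _ fun j hj => Finset.analyticAt_fun_sum _ fun k hk => ?_
      exact analyticAt_const.mul (htan j hj k hk)
    have ho2 := ord_eq (PhiH P N X m c) (tot P N X m c) (fun s => s ^ bb N m 0) α
      (analyticAt_id.pow _) (pow_ne_zero _ hα0) hTan (by
        filter_upwards [h2, h3] with s h4 h5
        exact tot_eq P N X m hX hind hm hm0 c s h4.le h5)
    rw [← ho1, ho2]
    refine ENat.forall_natCast_le_iff_le.mp fun n hn => ?_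
    rw [natCast_le_analyticOrderAt_iff_iteratedDeriv_eq_zero hGan] at hn
    rw [natCast_le_analyticOrderAt_iff_iteratedDeriv_eq_zero hTan]
    intro t ht
    have hrowt : IsRow P X N α t := ⟨hα0, by rintro rfl; simp at hα, Or.inl ⟨hα, fun i hi =>
      hn i (by omega)⟩⟩
    have h4 := congrFun hc (some ⟨(α, t), hrowt⟩)
    have h5 := hrow (fun j k => iteratedDeriv t (phi P X m j k) α) h4
    unfold tot
    rw [iteratedDeriv_fun_sum (fun j hj => by
      refine (Finset.analyticAt_fun_sum _ fun k hk => analyticAt_const.mul (htan j hj k hk)).contDiffAt)]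
    rw [← h5]
    refine Finset.sum_congr rfl fun j hj => ?_
    rw [iteratedDeriv_fun_sum (f := fun k s => ext N m c j k * phi P X m j k s)
      (fun k hk => (analyticAt_const.mul (htan j hj k hk)).contDiffAt)]
    refine Finset.sum_congr rfl fun k hk => ?_
    rw [iteratedDeriv_const_mul_field]
  · -- boundary zeros
    intro α hα hz
    have hα0 : α ≠ 0 := by rintro rfl; simp at hα
    rw [tot_eq P N X m hX hind hm hm0 c α hα.le hα0]
    suffices h : tot P N X m c α = 0 by rw [h, mul_zero]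
    by_cases hα1 : α = 1
    · subst hα1
      have h4 := congrFun hc none
      have h5 := hrow (fun j k => (nu P X m j k : ℂ)) h4
      unfold tot
      rw [← h5]
      refine Finset.sum_congr rfl fun j hj => Finset.sum_congr rfl fun k hk => ?_
      congr 1
      simp [phi, wt, pgf, nu]
    · have h6 : pgf P (psum X N) α = 1 := by
        rw [psi_eq P N X m hX hind hm hm0 α hα.le hα0, hz]
        simp
      have hrowt : IsRow P X N α 0 := ⟨hα0, hα1, Or.inr ⟨hα, rfl, h6⟩⟩
      have h4 := congrFun hc (some ⟨(α, 0), hrowt⟩)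
      have h5 := hrow (fun j k => iteratedDeriv 0 (phi P X m j k) α) h4
      simpa [tot] using h5

theorem bd_simple (hD : ∑ j ∈ range N, m j < 0)
    (hmean : ∫ ω, ((psum X N ω : ℤ) : ℝ) ∂P < 0) (α : ℂ) (hα : ‖α‖ = 1)
    (hz : pgf P (psum X N) α = 1) :
    ∃ d : ℂ, d ≠ 0 ∧ HasDerivWithinAt (pgf P (psum X N)) d (closedBall 0 1) α := by
  obtain ⟨hmom, hmean'⟩ := mean_lem P N X m hX hm hmean
  have hbz : (bb N m 0 : ℤ) = -∑ j ∈ range N, m j := by
    unfold bb
    rw [← Finset.range_eq_Ico]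
    push_cast
    rw [← Finset.sum_neg_distrib]
    refine Finset.sum_congr rfl fun i hi => ?_
    have := hm0 i (Finset.mem_range.1 hi)
    unfold cols
    omega
  have hbR : ((-∑ j ∈ range N, m j : ℤ) : ℝ) = (bb N m 0 : ℝ) := by
    rw [← hbz]; push_cast; rfl
  have hα0 : α ≠ 0 := by rintro rfl; simp at hα
  have hΨz : PsiH P N X m α = 0 := by
    have h1 := psi_eq P N X m hX hind hm hm0 α hα.le hα0
    rw [hz] at h1
    have h2 : (α ^ bb N m 0)⁻¹ * PsiH P N X m α = 0 := by linear_combination h1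
    exact (mul_eq_zero.1 h2).resolve_left (inv_ne_zero (pow_ne_zero _ hα0))
  obtain ⟨d, hd, hder⟩ := bd_deriv N (bb N m 0) (law P X m) (fun j _ => law_nonneg P X m j)
    (fun j hj => law_sum P X m j (hX j hj)) hmom (by rw [← hbR]; exact hmean') α hα hΨz
  have hinv : DifferentiableAt ℂ (fun s : ℂ => (s ^ bb N m 0)⁻¹) α :=
    (differentiableAt_id.pow _).inv (pow_ne_zero _ hα0)
  have h3 := ((hinv.hasDerivAt.hasDerivWithinAt (s := closedBall (0 : ℂ) 1)).mul hder).const_sub 1
  have hΨz' : α ^ bb N m 0 - ∏ j ∈ range N, gf (law P X m j) α = 0 := hΨz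
  simp only [hΨz', mul_zero, zero_add] at h3
  refine ⟨_, ?_, h3.congr_of_eventuallyEq ?_ ?_⟩
  · exact neg_ne_zero.2 (mul_ne_zero (inv_ne_zero (pow_ne_zero _ hα0)) hd)
  · have h5 : ∀ᶠ s in 𝓝[closedBall (0 : ℂ) 1] α, s ≠ 0 :=
      nhdsWithin_le_nhds (isOpen_ne.mem_nhds hα0)
    filter_upwards [h5, self_mem_nhdsWithin] with s h6 h7
    exact psi_eq P N X m hX hind hm hm0 s (by simpa using h7) h6
  · exact psi_eq P N X m hX hind hm hm0 α hα.le hα0

end

end Pool.Agent.Q222.RE
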