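import Pool.Agent.Q222.RE.Glue
import Pool.Agent.Q222.RE.Def

open MeasureTheory ProbabilityTheory Finset Filter Topology

namespace Pool.Agent.Q222.RE

theorem hasSum_nat {E : Type*} [NormedAddCommGroup E] [NormedSpace ℝ E] [CompleteSpace E]
    (μ : Measure ℕ) (f : ℕ → E) (hf : Integrable f μ) :
    HasSum (fun n => μ.real {n} • f n) (∫ x, f x ∂μ) := by
  have hf' := hf
  rw [← Measure.sum_smul_dirac μ] at hf'
  have h := hasSum_integral_measure hf'
  rw [Measure.sum_smul_dirac] at h
  refine h.congr_fun ?_ |> fun h => h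
  intro n
  rw [integral_smul_measure, integral_dirac, measureReal_def]

variable {Ω : Type*} [MeasurableSpace Ω] (P : Measure Ω) [IsProbabilityMeasure P]

/-- `Y j = X j - m j` -/
def shf (X : ℕ → Ω → ℤ) (m : ℕ → ℤ) (j : ℕ) (ω : Ω) : ℕ := (X j ω - m j).toNat

/-- the law of `Y j` -/
noncomputable def law (X : ℕ → Ω → ℤ) (m : ℕ → ℤ) (j n : ℕ) : ℝ := (P.map (shf X m j)).real {n}

theorem ae_ge (X : Ω → ℤ) (m : ℤ) (hm : IsLeast {k : ℤ | P {ω | X ω = k} ≠ 0} m) :
    ∀ᵐ ω ∂P, m ≤ X ω := by
  have h1 : ∀ᵐ ω ∂P, ∀ k : ℤ, k < m → X ω ≠ k := by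
    rw [ae_all_iff]
    intro k
    by_cases hk : k < m
    · have h2 : P {ω | X ω = k} = 0 := by
        by_contra h
        exact absurd (hm.2 h) (not_le.2 hk)
      rw [ae_iff]
      simpa [hk] using h2
    · exact Eventually.of_forall fun ω h => absurd h hk
  filter_upwards [h1] with ω h
  by_contra h3
  exact h (X ω) (not_le.1 h3) rfl

variable (N : ℕ) (X : ℕ → Ω → ℤ) (m : ℕ → ℤ)

theorem shf_meas (j : ℕ) (hX : Measurable (X j)) : Measurable (shf X m j) := by
  unfold shf
  exact (measurable_of_countable (fun k : ℤ => (k - m j).toNat)).comp hX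

theorem law_nonneg (j n : ℕ) : 0 ≤ law P X m j n := measureReal_nonneg

theorem law_sum (j : ℕ) (hX : Measurable (X j)) : HasSum (law P X m j) 1 := by
  haveI : IsProbabilityMeasure (P.map (shf X m j)) :=
    Measure.isProbabilityMeasure_map (shf_meas X m j hX).aemeasurable
  have h := hasSum_nat (P.map (shf X m j)) (fun _ => (1 : ℝ)) (integrable_const _)
  have h1 : ∫ _ : ℕ, (1 : ℝ) ∂(P.map (shf X m j)) = 1 := by simp
  rw [h1] at h
  refine h.congr_fun ?_ |> fun h => h
  intro n
  simp [law]

theorem gf_law (j : ℕ) (hX : Measurable (X j)) (s : ℂ) (hs : ‖s‖ ≤ 1) :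
    gf (law P X m j) s = ∫ ω, s ^ (shf X m j ω) ∂P := by
  haveI : IsProbabilityMeasure (P.map (shf X m j)) :=
    Measure.isProbabilityMeasure_map (shf_meas X m j hX).aemeasurable
  have hi : Integrable (fun n : ℕ => s ^ n) (P.map (shf X m j)) := by
    refine Integrable.of_bound (C := 1) (measurable_of_countable _).aestronglyMeasurable ?_
    exact Eventually.of_forall fun n => by
      rw [norm_pow]; exact pow_le_one₀ (norm_nonneg _) hs
  have h := hasSum_nat (P.map (shf X m j)) (fun n => s ^ n) hi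
  rw [integral_map (shf_meas X m j hX).aemeasurable hi.aestronglyMeasurable] at h
  rw [← h.tsum_eq, gf]
  refine tsum_congr fun n => ?_
  rw [law, Complex.real_smul]

theorem pgf_one (j : ℕ) (hX : Measurable (X j))
    (hm : IsLeast {k : ℤ | P {ω | X j ω = k} ≠ 0} (m j)) (s : ℂ) (hs : ‖s‖ ≤ 1) (hs0 : s ≠ 0) :
    ∫ ω, s ^ (X j ω) ∂P = s ^ (m j) * gf (law P X m j) s := by
  rw [gf_law P X m j hX s hs, ← integral_const_mul]
  refine integral_congr_ae ?_
  filter_upwards [ae_ge P (X j) (m j) hm] with ω h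
  rw [← zpow_natCast, ← zpow_add₀ hs0]
  congr 1
  unfold shf
  omega

theorem pgf_psum (hX : ∀ j < N, Measurable (X j)) (hind : iIndepFun (fun j : Fin N => X j) P)
    (hm : ∀ j < N, IsLeast {k : ℤ | P {ω | X j ω = k} ≠ 0} (m j)) (j : ℕ) (hj : j ≤ N) (s : ℂ)
    (hs : ‖s‖ ≤ 1) (hs0 : s ≠ 0) :
    pgf P (psum X j) s = ∏ i ∈ range j, (s ^ (m i) * gf (law P X m i) s) := by
  classical
  have h1 := hind.integral_fun_prod_comp (f := fun (i : Fin N) (k : ℤ) =>
      if (i : ℕ) < j then (s ^ k : ℂ) else 1)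
    (fun i => (hX i i.2).aemeasurable)
    (fun i => (measurable_of_countable _).aestronglyMeasurable)
  have h2 : ∀ ω, ∏ i : Fin N, (if (i : ℕ) < j then (s ^ (X i ω) : ℂ) else 1) =
      s ^ (psum X j ω) := by
    intro ω
    have h3 : ∏ i : Fin N, (if (i : ℕ) < j then (s ^ (X i ω) : ℂ) else 1) =
        ∏ i ∈ range N, (if i < j then (s ^ (X i ω) : ℂ) else 1) :=
      (Finset.prod_range fun i => if i < j then (s ^ (X i ω) : ℂ) else 1).symm
    rw [h3, Finset.prod_ite, Finset.prod_const_one, mul_one]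
    have h4 : (range N).filter (· < j) = range j := by
      ext i; simp only [Finset.mem_filter, Finset.mem_range]; omega
    rw [h4, psum]
    induction j with
    | zero => simp
    | succ k ih =>
      rw [Finset.prod_range_succ, Finset.sum_range_succ, zpow_add₀ hs0]
      congr 1
      have hf : (range N).filter (· < k) = range k := by
        ext i; simp only [Finset.mem_filter, Finset.mem_range]; omega
      clear h1 h3 h4
      exact (by
        clear ih hf
        have : ∀ k : ℕ, ∏ i ∈ range k, s ^ (X i ω) = s ^ (∑ i ∈ range k, X i ω) := by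
          intro k
          induction k with
          | zero => simp
          | succ k ih => rw [Finset.prod_range_succ, Finset.sum_range_succ, zpow_add₀ hs0, ih]
        exact this k)
  have h5 : ∏ i : Fin N, ∫ ω, (if (i : ℕ) < j then (s ^ (X i ω) : ℂ) else 1) ∂P =
      ∏ i ∈ range j, (s ^ (m i) * gf (law P X m i) s) := by
    have h3 : ∏ i : Fin N, ∫ ω, (if (i : ℕ) < j then (s ^ (X i ω) : ℂ) else 1) ∂P =
        ∏ i ∈ range N, (if i < j then (s ^ (m i) * gf (law P X m i) s) else 1) := by
      rw [Finset.prod_range]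
      refine Finset.prod_congr rfl fun i _ => ?_
      by_cases h : (i : ℕ) < j
      · simp only [h, if_true]
        exact pgf_one P X m i (hX i i.2) (hm i i.2) s hs hs0
      · simp [h]
    rw [h3, Finset.prod_ite, Finset.prod_const_one, mul_one]
    refine Finset.prod_congr ?_ fun _ _ => rfl
    ext i; simp only [Finset.mem_filter, Finset.mem_range]; omega
  rw [pgf, ← h5, ← h1]
  exact integral_congr_ae (Eventually.of_forall fun ω => (h2 ω).symm)

theorem law_zero (j : ℕ) (hX : Measurable (X j))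
    (hm : IsLeast {k : ℤ | P {ω | X j ω = k} ≠ 0} (m j)) : 0 < law P X m j 0 := by
  haveI : IsProbabilityMeasure (P.map (shf X m j)) :=
    Measure.isProbabilityMeasure_map (shf_meas X m j hX).aemeasurable
  rw [law, measureReal_def, ENNReal.toReal_pos_iff]
  refine ⟨?_, measure_lt_top _ _⟩
  rw [Measure.map_apply (shf_meas X m j hX) (measurableSet_singleton _)]
  refine lt_of_lt_of_le (pos_iff_ne_zero.2 hm.1) (measure_mono ?_)
  intro ω hω
  simp only [Set.mem_setOf_eq] at hω
  simp [shf, hω]

theorem mean_lem (hX : ∀ j < N, Measurable (X j))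
    (hm : ∀ j < N, IsLeast {k : ℤ | P {ω | X j ω = k} ≠ 0} (m j))
    (hmean : ∫ ω, ((psum X N ω : ℤ) : ℝ) ∂P < 0) :
    (∀ j < N, Summable fun n : ℕ => (n : ℝ) * law P X m j n) ∧
      ∑ j ∈ range N, ∑' n : ℕ, (n : ℝ) * law P X m j n < ((-∑ j ∈ range N, m j : ℤ) : ℝ) := by
  have hint : Integrable (fun ω => ((psum X N ω : ℤ) : ℝ)) P := by
    by_contra h
    rw [integral_undef h] at hmean
    exact lt_irrefl _ hmean
  have hae : ∀ᵐ ω ∂P, ∀ j < N, (X j ω : ℤ) = m j + shf X m j ω := by
    have : ∀ j : ℕ, ∀ᵐ ω ∂P, j < N → (X j ω : ℤ) = m j + shf X m j ω := by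
      intro j
      by_cases hj : j < N
      · filter_upwards [ae_ge P (X j) (m j) (hm j hj)] with ω h _
        unfold shf
        omega
      · exact Eventually.of_forall fun ω h => absurd h hj
    exact ae_all_iff.2 this
  have hsum : ∀ᵐ ω ∂P, ∑ j ∈ range N, (shf X m j ω : ℝ) =
      ((psum X N ω : ℤ) : ℝ) + ((-∑ j ∈ range N, m j : ℤ) : ℝ) := by
    filter_upwards [hae] with ω h
    have h1 : psum X N ω = ∑ j ∈ range N, (m j + (shf X m j ω : ℤ)) :=
      Finset.sum_congr rfl fun j hj => h j (Finset.mem_range.1 hj)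
    rw [h1, Finset.sum_add_distrib]
    push_cast
    ring
  have hintS : Integrable (fun ω => ∑ j ∈ range N, (shf X m j ω : ℝ)) P :=
    (hint.add (integrable_const _)).congr (hsum.mono fun ω h => h.symm)
  have hintY : ∀ j < N, Integrable (fun ω => (shf X m j ω : ℝ)) P := by
    intro j hj
    refine hintS.mono' ?_ (Eventually.of_forall fun ω => ?_)
    · exact ((measurable_of_countable (fun n : ℕ => (n : ℝ))).comp
        (shf_meas X m j (hX j hj))).aestronglyMeasurable
    · rw [Real.norm_of_nonneg (Nat.cast_nonneg _)]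
      exact Finset.single_le_sum (f := fun j => (shf X m j ω : ℝ))
        (fun _ _ => Nat.cast_nonneg _) (Finset.mem_range.2 hj)
  have hH : ∀ j < N, HasSum (fun n : ℕ => (n : ℝ) * law P X m j n)
      (∫ ω, (shf X m j ω : ℝ) ∂P) := by
    intro j hj
    have hmY := shf_meas X m j (hX j hj)
    have hi : Integrable (fun n : ℕ => (n : ℝ)) (P.map (shf X m j)) := by
      rw [integrable_map_measure (measurable_of_countable _).aestronglyMeasurable hmY.aemeasurable]
      exact hintY j hj
    have h := hasSum_nat (P.map (shf X m j)) (fun n : ℕ => (n : ℝ)) hi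
    rw [integral_map hmY.aemeasurable hi.aestronglyMeasurable] at h
    refine h.congr_fun ?_ |> fun h => h
    intro n
    rw [law, smul_eq_mul, mul_comm]
  refine ⟨fun j hj => (hH j hj).summable, ?_⟩
  have h1 : ∑ j ∈ range N, ∑' n : ℕ, (n : ℝ) * law P X m j n =
      ∫ ω, ∑ j ∈ range N, (shf X m j ω : ℝ) ∂P := by
    rw [integral_finset_sum _ fun j hj => hintY j (Finset.mem_range.1 hj)]
    exact Finset.sum_congr rfl fun j hj => (hH j (Finset.mem_range.1 hj)).tsum_eq
  rw [h1, integral_congr_ae hsum, integral_add hint (integrable_const _)]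
  simp only [integral_const, probReal_univ, one_smul]
  linarith

end Pool.Agent.Q222.RE
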